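import Pool.Agent.Helper94.PU.Sheet
open MeasureTheory Metric Set Filter Topology Real
open scoped ENNReal NNReal

/-! Row EXIT of project PU (MP_665203_co). -/

namespace H11ST
namespace PU
namespace H80

/-- the norm in the frame -/
theorem nsq {τ ν : E 2} (F : Fr τ ν) (z : E 2) :
    ‖z‖ ^ 2 = inner ℝ z τ ^ 2 + inner ℝ z ν ^ 2 := by
  have e1 : τ 0 ^ 2 + τ 1 ^ 2 = 1 := by
    have h := EuclideanSpace.norm_sq_eq τ
    rw [F.t1] at h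
    simp only [Fin.sum_univ_two, Real.norm_eq_abs, sq_abs] at h
    linarith
  have e2 : ν 0 ^ 2 + ν 1 ^ 2 = 1 := by
    have h := EuclideanSpace.norm_sq_eq ν
    rw [F.n1] at h
    simp only [Fin.sum_univ_two, Real.norm_eq_abs, sq_abs] at h
    linarith
  have e3 : τ 0 * ν 0 + τ 1 * ν 1 = 0 := by
    have h := F.o
    simp only [PiLp.inner_apply, Fin.sum_univ_two, RCLike.inner_apply, conj_trivial] at h
    linarith
  have a1 : ν 1 = (τ 0 * ν 1 - τ 1 * ν 0) * τ 0 := by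
    linear_combination (-ν 1) * e1 + τ 1 * e3
  have a2 : ν 0 = -((τ 0 * ν 1 - τ 1 * ν 0) * τ 1) := by
    linear_combination (-ν 0) * e1 + τ 0 * e3
  have a3 : (τ 0 * ν 1 - τ 1 * ν 0) ^ 2 = 1 := by
    linear_combination (ν 0 ^ 2 + ν 1 ^ 2) * e1 + e2 - (τ 0 * ν 0 + τ 1 * ν 1) * e3
  have b1 : τ 0 ^ 2 + ν 0 ^ 2 = 1 := by
    linear_combination (ν 0 - (τ 0 * ν 1 - τ 1 * ν 0) * τ 1) * a2 + τ 1 ^ 2 * a3 + e1
  have b2 : τ 1 ^ 2 + ν 1 ^ 2 = 1 := by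
    linear_combination (ν 1 + (τ 0 * ν 1 - τ 1 * ν 0) * τ 0) * a1 + τ 0 ^ 2 * a3 + e1
  have b3 : τ 0 * τ 1 + ν 0 * ν 1 = 0 := by
    linear_combination ν 1 * a2 - (τ 0 * ν 1 - τ 1 * ν 0) * τ 1 * a1 - τ 0 * τ 1 * a3
  rw [EuclideanSpace.norm_sq_eq]
  simp only [PiLp.inner_apply, Fin.sum_univ_two, RCLike.inner_apply, conj_trivial,
    Real.norm_eq_abs, sq_abs]
  linear_combination (-z 0 ^ 2) * b1 - z 1 ^ 2 * b2 - 2 * z 0 * z 1 * b3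

section
variable {V : Type*} [NormedAddCommGroup V] [InnerProductSpace ℝ V]

theorem line_eq (y v : V) (s : ℝ) : AffineMap.lineMap (k := ℝ) y (y + v) s = y + s • v := by
  simp [AffineMap.lineMap_apply, add_comm]

theorem seg_img (y v : V) {a b : ℝ} (h : a ≤ b) :
    segment ℝ (y + a • v) (y + b • v) = (fun s : ℝ => y + s • v) '' Icc a b := by
  have h1 := image_segment (𝕜 := ℝ) (AffineMap.lineMap (k := ℝ) y (y + v)) a b
  rw [segment_eq_Icc h, line_eq, line_eq] at h1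
  rw [← h1]
  exact image_congr fun s _ => line_eq y v s

theorem oseg_img (y v : V) {a b : ℝ} (h : a < b) :
    openSegment ℝ (y + a • v) (y + b • v) = (fun s : ℝ => y + s • v) '' Ioo a b := by
  have h1 := image_openSegment (𝕜 := ℝ) (AffineMap.lineMap (k := ℝ) y (y + v)) a b
  rw [openSegment_eq_Ioo h, line_eq, line_eq] at h1
  rw [← h1]
  exact image_congr fun s _ => line_eq y v s

end

theorem inn_t {τ ν : E 2} (F : Fr τ ν) (y : E 2) (s : ℝ) :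
    inner ℝ (y + s • τ) τ = inner ℝ y τ + s := by
  rw [inner_add_left, inner_smul_left, real_inner_self_eq_norm_sq, F.t1]
  simp

theorem inn_n {τ ν : E 2} (F : Fr τ ν) (y : E 2) (s : ℝ) :
    inner ℝ (y + s • τ) ν = inner ℝ y ν := by
  rw [inner_add_left, inner_smul_left, F.o]
  simp

/-- horizontal points in the disc of radius `ρ` -/
theorem in_disc {τ ν : E 2} (F : Fr τ ν) (y : E 2) {β X ρ : ℝ} (hβ : |β| ≤ X) (hρ : 0 ≤ ρ)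
    (h : X ^ 2 + inner ℝ y ν ^ 2 ≤ ρ ^ 2) : ‖y + (β - inner ℝ y τ) • τ‖ ≤ ρ := by
  have h1 := nsq F (y + (β - inner ℝ y τ) • τ)
  rw [inn_t F, inn_n F] at h1
  have h2 : β ^ 2 ≤ X ^ 2 := by
    rw [← sq_abs β]
    exact pow_le_pow_left₀ (abs_nonneg _) hβ 2
  have h3 : ‖y + (β - inner ℝ y τ) • τ‖ ^ 2 ≤ ρ ^ 2 := by
    rw [h1]
    have : inner ℝ y τ + (β - inner ℝ y τ) = β := by ring
    rw [this]
    linarith
  exact (pow_le_pow_iff_left₀ (norm_nonneg _) hρ two_ne_zero).1 h3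

theorem ray_mem {S : Set (E 2)} {τ ν y : E 2} (T : TA S τ ν y) {R : ℝ}
    (r : ∀ s : ℝ, 0 < s → ‖y + s • τ‖ ≤ R → ∃ ε, Lin S (y + s • τ) τ ε) {s : ℝ} (hs : 0 ≤ s)
    (hR : ‖y + s • τ‖ ≤ R) : y + s • τ ∈ S := by
  rcases hs.eq_or_lt with h | h
  · obtain ⟨u, ε, T, -⟩ := T
    have := T.mem (i := 0) (s := 0) le_rfl T.pos
    rw [← h, zero_smul]
    rwa [zero_smul] at this
  · obtain ⟨ε, hl⟩ := r s h hR
    exact hl.z_mem

end H80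

open H80 in
theorem exit (hex : ST_EXCH) : ST_EXIT := by
  intro A S ρ₀ P hB t ht0 ht1 τ ν y₁ y₂ F T₁ T₂ n₁ n₂ x₁ x₂ hη r₁ r₂ hlt
  by_contra hcon
  rw [not_le] at hcon
  have N₁ := nsq F y₁
  have N₂ := nsq F y₂
  obtain ⟨p₁, hp₁⟩ : ∃ p, p = inner ℝ y₁ τ := ⟨_, rfl⟩
  obtain ⟨p₂, hp₂⟩ : ∃ p, p = inner ℝ y₂ τ := ⟨_, rfl⟩
  obtain ⟨q₁, hq₁⟩ : ∃ p, p = inner ℝ y₁ ν := ⟨_, rfl⟩
  obtain ⟨q₂, hq₂⟩ : ∃ p, p = inner ℝ y₂ ν := ⟨_, rfl⟩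
  rw [← hp₁] at x₁ N₁
  rw [← hp₂] at x₂ N₂
  rw [← hq₁] at x₁ N₁ hη hlt hcon
  rw [← hq₂] at x₂ N₂ hlt hcon
  have hr0 := hB.r0
  have ht : 0 ≤ t := by linarith
  have m₁ : p₁ ^ 2 + q₁ ^ 2 ≤ t ^ 2 := by
    rw [← N₁]; exact pow_le_pow_left₀ (norm_nonneg _) n₁ 2
  have m₂ : p₂ ^ 2 + q₂ ^ 2 ≤ t ^ 2 := by
    rw [← N₂]; exact pow_le_pow_left₀ (norm_nonneg _) n₂ 2
  have c₂ : -t ≤ q₂ := by
    have : q₂ ^ 2 ≤ t ^ 2 := by linarith [sq_nonneg p₂]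
    exact (abs_le_of_sq_le_sq' this ht).1
  obtain ⟨ρ, hρ⟩ : ∃ ρ, ρ = (1 + t) / 2 := ⟨_, rfl⟩
  rw [← hρ] at r₁ r₂
  have hρ0 : 0 ≤ ρ := by rw [hρ]; linarith
  have hρ1 : ρ < 1 := by rw [hρ]; linarith
  have htρ : t < ρ := by rw [hρ]; linarith
  have htρ2 : t ^ 2 < ρ ^ 2 := pow_lt_pow_left₀ htρ ht two_ne_zero
  have hX2 : 0 < ρ ^ 2 - q₂ ^ 2 := by linarith [sq_nonneg p₂]
  obtain ⟨X, hX⟩ : ∃ X, X = √(ρ ^ 2 - q₂ ^ 2) := ⟨_, rfl⟩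
  have hX0 : 0 < X := by rw [hX]; exact Real.sqrt_pos.2 hX2
  have hXs : X ^ 2 = ρ ^ 2 - q₂ ^ 2 := by rw [hX]; exact Real.sq_sqrt hX2.le
  have hlow : (1 + q₂) * (1 - 3 * q₂) / 4 ≤ X ^ 2 := by
    have h1 : (1 - q₂) / 2 ≤ ρ := by rw [hρ]; linarith
    have h2 : 0 ≤ (1 - q₂) / 2 := by linarith
    have h3 : ((1 - q₂) / 2) ^ 2 ≤ ρ ^ 2 := pow_le_pow_left₀ h2 h1 2
    rw [hXs]
    linarith
  have hη2 : 0 ≤ 1 + q₂ := by linarith
  have hη1 : 0 < 1 + q₁ := by linarith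
  have hbig : 2 * (1 + q₁) < X := by
    have h1 : (2 * (1 + q₁)) ^ 2 < X ^ 2 := by
      have h2 : 157 / 160 ≤ (1 - 3 * q₂) / 4 := by linarith
      have h3 : (1 + q₂) * (157 / 160) ≤ (1 + q₂) * ((1 - 3 * q₂) / 4) :=
        mul_le_mul_of_nonneg_left h2 hη2
      linarith [sq_nonneg (1 + q₁)]
    exact lt_of_pow_lt_pow_left₀ 2 hX0.le h1
  obtain ⟨α, hα⟩ : ∃ α, α = max p₁ p₂ := ⟨_, rfl⟩
  have hα1 : p₁ ≤ α := by rw [hα]; exact le_max_left _ _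
  have hα2 : p₂ ≤ α := by rw [hα]; exact le_max_right _ _
  have hαu : α ≤ 1 + q₁ := by
    rw [hα]
    exact max_le x₁ (by linarith)
  have hαX : α < X := by linarith
  have hp₂X : -X ≤ p₂ := by
    have : p₂ ^ 2 ≤ X ^ 2 := by linarith
    exact (abs_le_of_sq_le_sq' this hX0.le).1
  have hαabs : |α| ≤ X := abs_le.2 ⟨by linarith, hαX.le⟩
  have hXabs : |X| ≤ X := (abs_of_pos hX0).le
  have hq : q₁ ^ 2 ≤ q₂ ^ 2 := by
    have h1 : 0 ≤ (q₁ - q₂) * (-(q₁ + q₂)) := mul_nonneg (by linarith) (by linarith)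
    linarith
  have d₂ : X ^ 2 + inner ℝ y₂ ν ^ 2 ≤ ρ ^ 2 := by rw [← hq₂, hXs]; linarith
  have d₁ : X ^ 2 + inner ℝ y₁ ν ^ 2 ≤ ρ ^ 2 := by rw [← hq₁, hXs]; linarith
  have D : ∀ y : E 2, X ^ 2 + inner ℝ y ν ^ 2 ≤ ρ ^ 2 → ∀ β, α ≤ β → β ≤ X →
      ‖y + (β - inner ℝ y τ) • τ‖ ≤ ρ := by
    intro y hy β h1 h2
    exact in_disc F y (abs_le.2 ⟨by linarith, h2⟩) hρ0 hy
  have B : ∀ y : E 2, X ^ 2 + inner ℝ y ν ^ 2 ≤ ρ ^ 2 → ∀ β, α ≤ β → β ≤ X →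
      y + (β - inner ℝ y τ) • τ ∈ ball (0 : E 2) 1 := by
    intro y hy β h1 h2
    rw [mem_ball_zero_iff]
    exact lt_of_le_of_lt (D y hy β h1 h2) hρ1
  have Sg : ∀ y : E 2, X ^ 2 + inner ℝ y ν ^ 2 ≤ ρ ^ 2 → TA S τ ν y → inner ℝ y τ ≤ α →
      (∀ s : ℝ, 0 < s → ‖y + s • τ‖ ≤ ρ → ∃ ε, Lin S (y + s • τ) τ ε) →
      segment ℝ (y + (α - inner ℝ y τ) • τ) (y + (X - inner ℝ y τ) • τ) ⊆ S := by
    intro y hy T hle r
    rw [seg_img y τ (by linarith)]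
    rintro z ⟨s, ⟨h1, h2⟩, rfl⟩
    refine ray_mem T r (by linarith) ?_
    have := D y hy (s + inner ℝ y τ) (by linarith) (by linarith)
    rwa [add_sub_cancel_right] at this
  have main := hex A S hB.L hB.cl (y₂ + (α - inner ℝ y₂ τ) • τ) (y₂ + (X - inner ℝ y₂ τ) • τ)
    (y₁ + (α - inner ℝ y₁ τ) • τ) (y₁ + (X - inner ℝ y₁ τ) • τ) ?_ (B y₂ d₂ α le_rfl hαX.le)
    (B y₂ d₂ X hαX.le le_rfl) (B y₁ d₁ α le_rfl hαX.le) (B y₁ d₁ X hαX.le le_rfl)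
    (Sg y₂ d₂ T₂ (by rw [← hp₂]; exact hα2) r₂) ?_ (Sg y₁ d₁ T₁ (by rw [← hp₁]; exact hα1) r₁) ?_
  · have e1 : dist (y₂ + (α - inner ℝ y₂ τ) • τ) (y₂ + (X - inner ℝ y₂ τ) • τ) = X - α := by
      rw [dist_eq_norm]
      have : y₂ + (α - inner ℝ y₂ τ) • τ - (y₂ + (X - inner ℝ y₂ τ) • τ) = (α - X) • τ := by
        rw [add_sub_add_left_eq_sub, ← sub_smul]
        congr 1
        ring
      rw [this, norm_smul, F.t1, mul_one, Real.norm_eq_abs, abs_sub_comm, abs_of_pos (by linarith)]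
    have e2 : ∀ β : ℝ, dist (y₂ + (β - inner ℝ y₂ τ) • τ) (y₁ + (β - inner ℝ y₁ τ) • τ) =
        q₁ - q₂ := by
      intro β
      rw [dist_eq_norm]
      have h1 := nsq F (y₂ + (β - inner ℝ y₂ τ) • τ - (y₁ + (β - inner ℝ y₁ τ) • τ))
      rw [inner_sub_left, inner_sub_left, inn_t F, inn_t F, inn_n F, inn_n F, ← hq₁, ← hq₂] at h1
      have h2 : ‖y₂ + (β - inner ℝ y₂ τ) • τ - (y₁ + (β - inner ℝ y₁ τ) • τ)‖ ^ 2 =
          (q₁ - q₂) ^ 2 := by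
        rw [h1]
        ring
      exact (pow_left_inj₀ (norm_nonneg _) (by linarith) two_ne_zero).1 h2
    rw [e1, e2, e2, max_self] at main
    linarith
  · intro h
    have h1 : (α - inner ℝ y₂ τ) • τ = (X - inner ℝ y₂ τ) • τ := add_left_cancel h
    have h2 := congrArg (fun v => inner ℝ v τ) h1
    simp only [inner_smul_left, real_inner_self_eq_norm_sq, F.t1, conj_trivial] at h2
    linarith
  · rw [oseg_img y₂ τ (by linarith), seg_img y₂ τ (by linarith)]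
    rintro v ⟨s, ⟨h1, h2⟩, rfl⟩
    have hs0 : 0 < s := by
      rw [← hp₂] at h1
      linarith
    have hn := D y₂ d₂ (s + inner ℝ y₂ τ) (by linarith) (by linarith)
    rw [add_sub_cancel_right] at hn
    obtain ⟨ε, hl⟩ := r₂ s hs0 hn
    refine ⟨min ε (min (s - (α - inner ℝ y₂ τ)) (X - inner ℝ y₂ τ - s)),
      lt_min hl.pos (lt_min (by linarith) (by linarith)), ?_⟩
    rintro z ⟨hz, hzb⟩
    have hz1 : z ∈ S ∩ ball (y₂ + s • τ) ε :=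
      ⟨hz, ball_subset_ball (min_le_left _ _) hzb⟩
    rw [hl.eq] at hz1
    obtain ⟨w, hw, rfl⟩ := hz1
    have h3 : |w| < min ε (min (s - (α - inner ℝ y₂ τ)) (X - inner ℝ y₂ τ - s)) := by
      rw [mem_ball, fdist_line F.t1] at hzb
      exact hzb
    have h4 : |w| < s - (α - inner ℝ y₂ τ) :=
      lt_of_lt_of_le h3 ((min_le_right _ _).trans (min_le_left _ _))
    have h5 : |w| < X - inner ℝ y₂ τ - s :=
      lt_of_lt_of_le h3 ((min_le_right _ _).trans (min_le_right _ _))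
    have h6 := abs_lt.1 h4
    have h7 := abs_lt.1 h5
    refine ⟨s + w, ⟨by linarith, by linarith⟩, ?_⟩
    simp only [add_smul]
    abel
  · rw [oseg_img y₂ τ (by linarith), seg_img y₁ τ (by linarith), disjoint_left]
    rintro z ⟨s, -, rfl⟩ ⟨s', -, h⟩
    have h1 := congrArg (fun v => inner ℝ v ν) h
    simp only at h1
    rw [inn_n F, inn_n F, ← hq₁, ← hq₂] at h1
    linarith

end PU
end H11ST
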